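import Pool.Graph.R_seed8.Helper27.Har.Stmt
import Pool.Agent.H74.HAR.Strong

/-!
# Bounded orbits of a damped wave equation: a periodic solution beside a non-compact orbit

The domain is the square `Ω = (0,π)²`, the damping is the truncation `g v = max (-1) (min v 1)` and
the period is `2π`. For one `2π`-periodic forcing `f` the equation
`∂ₜ²u - Δu + g(∂ₜu) = f(t)`, `u = 0` on `∂Ω`, has a `2π`-periodic solution `P` in the energy space
`H¹₀(Ω) × L²(Ω)` and also a bounded solution `U` whose states at certain times `s₀, s₁, …`, tending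
to infinity, have pairwise energy distance at least `1`, so that its orbit is not precompact.

The definitions `St.L2`, `St.State` (the quadruples `(u, ∂ₓu, ∂_y u, ∂ₜu)`), `St.IsSolution`,
`St.IsBddSol`, `St.PrecompactOrbit` are in the library file `Helper27/Har/Stmt.lean`.
-/

set_option autoImplicit false

open MeasureTheory Set Filter

namespace Pool.Agent.Results.MP_4a11c8_an.PeriodicAndSeparated

open Haraux

/-- The square `(0,π)²`. -/
abbrev square : Set (ℝ × ℝ) := Ioo 0 Real.pi ×ˢ Ioo 0 Real.pi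

/-- The truncation at `±1`. -/
noncomputable def trunc (v : ℝ) : ℝ := max (-1) (min v 1)

/-- The squared energy distance of two states:
`‖∂ₓu₁ - ∂ₓu₂‖² + ‖∂_y u₁ - ∂_y u₂‖² + ‖∂ₜu₁ - ∂ₜu₂‖²`, norms in `L²(Ω)`. -/
noncomputable def energyDistSq (A B : St.State square) : ℝ :=
  ‖A.2.1 - B.2.1‖ ^ 2 + ‖A.2.2.1 - B.2.2.1‖ ^ 2 + ‖A.2.2.2 - B.2.2.2‖ ^ 2

/-- On the square `(0,π)²`, with `g` the truncation at `±1` (nondecreasing, Lipschitz with constant
`1`), there is a continuous `2π`-periodic `f : ℝ → L²` such that the equation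
`∂ₜ²u - Δu + g(∂ₜu) = f(t)` has
* a solution `P` with `P (t + 2π) = P t` for all `t`, and
* a bounded solution `U` and times `s 0, s 1, … ≥ 0` with `s k → ∞` such that the states `U (s k)`
  have pairwise energy distance at least `1`; in particular the positive orbit of `U` does not have
  compact closure. -/
theorem result : Monotone trunc ∧ LipschitzWith 1 trunc ∧
    ∃ f : ℝ → St.L2 square, Continuous f ∧ (∀ t : ℝ, f (t + 2 * Real.pi) = f t) ∧
      (∃ P : ℝ → St.State square, St.IsSolution square trunc f P ∧ Continuous P ∧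
        ∀ t : ℝ, P (t + 2 * Real.pi) = P t) ∧
      ∃ U : ℝ → St.State square, St.IsSolution square trunc f U ∧ St.IsBddSol square U ∧
        (∃ s : ℕ → ℝ, (∀ k, 0 ≤ s k) ∧ Tendsto s atTop atTop ∧
          ∀ j k, j ≠ k → 1 ≤ energyDistSq (U (s j)) (U (s k))) ∧
        ¬ St.PrecompactOrbit square U := by
  refine ⟨clip_mono, clip_lipschitz, ?_⟩
  obtain ⟨f, hf, hper, ⟨P, hP, hPc, hPper⟩, U, hU, hUb, ⟨s, hs, hst, hsep⟩, hc⟩ :=
    Pool.Agent.H74.HAR.strong
  exact ⟨f, hf, hper, ⟨P, ⟨hP.cont, hP.mem, hP.deriv, hP.weak⟩, hPc, hPper⟩, U,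
    ⟨hU.cont, hU.mem, hU.deriv, hU.weak⟩, hUb, ⟨s, hs, hst, hsep⟩, hc⟩

end Pool.Agent.Results.MP_4a11c8_an.PeriodicAndSeparated
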